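import Pool.Agent.Helper51.PP.Final

/-!
# Quenched central limit theorem for random walk on point processes under second moments

Let `d ≥ 2` and let `Q` be a probability measure on `{0,1}^{ℤ^d}`, stationary and ergodic under each
coordinate shift, with `Q(ω ≡ 0) < 1`.  If `E_P[f_e²] < ∞` for every direction `e`, then the random
walk on the point process satisfies the quenched central limit theorem, with a covariance matrix that
is a function of the law `P = Q(· | ω(0) = 1)`.

The definitions (`Conf`, `shiftConf`, `dirVec`, `gap`, `nextPt`, `walkLaw`, `rescale`, `scaledLaw`,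
`Om0`, `IsPointProcess`) are in `Pool/Agent/Helper51/PP/Defs.lean`.

Proof.  Two consecutive steps in one direction satisfy a grid line Sobolev inequality, whatever the
configuration; this gives the Nash inequality and the heat kernel bound `p_n(x,y) ≤ C n^{-d/2}`.
For every function `u` on the sites one has, with `H_n` the entropy of the law at time `n` and
`F_n = E_ω|∇u(X_n)|²`,
`E_ω|u(X_{n+2})| - E_ω|u(X_n)| ≤ (2 (F_n + F_{n+1}) (H_{n+1} - H_n))^{1/2}`.
With `u = |x|`, the heat kernel bound and Hopf's maximal inequality this gives `E_ω|X_n| ≤ C(ω) √n`
(Nash's argument with second moments along the path only).  With `u` = corrector minus a bounded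
function of the environment it gives directly `E_ω|χ(X_n)| = o(√n)`, without any sublinearity
statement for the corrector.  The martingale part is treated with a characteristic function estimate
of Lindeberg type and Hopf's maximal inequality.
-/

namespace Pool.Agent.Results.MP_b460e8_pr.QuenchedCLT

open MeasureTheory ProbabilityTheory Filter Topology Pool.Agent.Helper51.PP
open scoped ENNReal

/-- Under stationarity, ergodicity in each coordinate direction and finite second moments of the
gaps, `X_n/√n` converges in law under `P_ω` to `N(0,D)` for `P`-a.e. `ω`, where `D` depends only on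
the law `P`. -/
theorem result {d : ℕ} [NeZero d] (hd : 2 ≤ d) :
    ∃ D : Measure (Conf d) → Matrix (Fin d) (Fin d) ℝ,
      ∀ Q : Measure (Conf d), IsPointProcess d Q →
        (∀ e : Fin d × Bool,
          ∫⁻ ω, ((gap ω 0 e : ℕ) : ℝ≥0∞) ^ 2 ∂(ProbabilityTheory.cond Q (Om0 d)) < ∞) →
        (D (ProbabilityTheory.cond Q (Om0 d))).PosSemidef ∧
        ∀ᵐ ω ∂(ProbabilityTheory.cond Q (Om0 d)),
          Tendsto (fun n : ℕ => scaledLaw ω n) atTop
            (𝓝 (⟨multivariateGaussian 0 (D (ProbabilityTheory.cond Q (Om0 d))), inferInstance⟩ :
              ProbabilityMeasure (EuclideanSpace ℝ (Fin d)))) :=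
  final hd

end Pool.Agent.Results.MP_b460e8_pr.QuenchedCLT
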